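import Pool.Agent.Lib.H32C.DatH
import Pool.Agent.Lib.H32C.DatI
import Pool.Agent.Lib.H32C.TdTB

/-!
# The omega one of infinite chess

The definitions of the statement are in `Pool.Agent.Lib.H32C.Defs`.  The lower bound simulates a machine with three
counters and choices of Black by finite positions which are built from 42 kinds of tiles
(`Pool.Agent.Lib.H32C.WldV`); the data of the tiles are checked in the files `Td...` and `Dat...`.
-/

namespace Pool.Agent.Results.MP_8e5a6c_lc.OmegaOneChess

open Pool.Agent.Lib.H32C Pool.Agent.Lib.H32C.Ly Pool.Agent.Lib.H32C.Loc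

/-- The omega one of infinite chess is the Church-Kleene ordinal. -/
theorem result : omegaOneChess = omegaOneCK :=
  omega_of_tb AD_pB AD_wB AD_bpB AD_opB AD_tpB TB_cert STB_x STB_y0

end Pool.Agent.Results.MP_8e5a6c_lc.OmegaOneChess
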